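import Pool.Agent.K1H22.DF.Stm5
import Pool.Agent.K1H1.DF.L3

/-! # Vertex-fault-tolerant graphs of diameter five: the lower bound from the pieces -/

set_option autoImplicit false

open Finset

namespace Pool.Agent.K1H88.DF5

open Pool.Agent.K1H22.DF

section

variable {V : Type} [Fintype V] [DecidableEq V] (G : SimpleGraph V) [DecidableRel G.Adj]

theorem bad_le (D k c : ℕ)
    (h0 : (univ.filter (fun v => v ∉ hub G D ∧ hn G D v = ∅ ∧ (S2 G D v).card < k)).card ≤ c)
    (h1 : ∀ h, (univ.filter (fun v => v ∉ hub G D ∧ h ∈ hn G D v ∧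
      (S2 G D v).card + (hn G D v).card ≤ k)).card ≤ c) :
    (bad G D k).card ≤ c + ∑ h ∈ hub G D, min (G.degree h) c := by
  have hsub : bad G D k ⊆
      univ.filter (fun v => v ∉ hub G D ∧ hn G D v = ∅ ∧ (S2 G D v).card < k) ∪
        (hub G D).biUnion (fun h => univ.filter (fun v => v ∉ hub G D ∧ h ∈ hn G D v ∧
          (S2 G D v).card + (hn G D v).card ≤ k)) := by
    intro v hv
    unfold bad at hv
    rw [mem_filter] at hv
    obtain ⟨_, hv1, hv2⟩ := hv
    rw [mem_union, mem_biUnion]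
    rcases hv2 with ⟨ha, hb⟩ | ⟨ha, hb⟩
    · left
      exact mem_filter.2 ⟨mem_univ _, hv1, ha, hb⟩
    · right
      obtain ⟨h, hh⟩ := Finset.nonempty_iff_ne_empty.2 ha
      refine ⟨h, ?_, mem_filter.2 ⟨mem_univ _, hv1, hh, hb⟩⟩
      unfold hn at hh
      exact (mem_filter.1 hh).2
  refine (card_le_card hsub).trans ((card_union_le _ _).trans (Nat.add_le_add h0 ?_))
  refine card_biUnion_le.trans (Finset.sum_le_sum fun h _ => le_min ?_ (h1 h))
  rw [← G.card_neighborFinset_eq_degree]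
  apply card_le_card
  intro v hv
  rw [mem_filter] at hv
  have h2 := hv.2.2.1
  unfold hn at h2
  rw [mem_filter, SimpleGraph.mem_neighborFinset] at h2
  rw [SimpleGraph.mem_neighborFinset]
  exact h2.1.symm

end

theorem t_L5 (h1 : S_WEAK5) (h2 : S_SCALE) (h3 : S_DISCH) (h4 : S_MIN) : S_L5 := by
  classical
  intro k hk ε hε
  choose C hC using fun D => h1 k D hk
  obtain ⟨D0, hD0⟩ := exists_nat_gt (2 * ((k : ℝ) + 1) ^ 2 / ε)
  obtain ⟨D1, hD1⟩ := h2 C D0 ((k : ℝ) + 1) (ε / 2) (half_pos hε)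
  obtain ⟨M, hM⟩ : ∃ M, M = (range (D1 + 1)).sup C := ⟨_, rfl⟩
  have hCM : ∀ D, D ≤ D1 → C D ≤ M := by
    intro D hD
    rw [hM]
    exact Finset.le_sup (mem_range.2 (Nat.lt_succ_of_le hD))
  obtain ⟨N, hN⟩ := exists_nat_ge ((M : ℝ) / ε)
  refine ⟨max N (k + 1), fun n hn G hG => ?_⟩
  have hn1 : N ≤ n := (le_max_left _ _).trans hn
  have hn2 : k + 1 ≤ n := (le_max_right _ _).trans hn
  have hnR : (0 : ℝ) ≤ n := Nat.cast_nonneg n
  have hD0pos : (0 : ℝ) < D0 := lt_of_le_of_lt (by positivity) hD0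
  have hmin : ∀ v, k ≤ G.degree v := h4 (Fin n) G 5 k hk (by rw [Fintype.card_fin]; exact hn2) hG
  have hsum := G.sum_degrees_eq_twice_card_edges
  have hE : G.edgeSet.ncard = G.edgeFinset.card := by
    rw [Set.ncard_eq_toFinset_card']
    rfl
  rw [hE]
  by_contra hcon
  rw [not_le] at hcon
  have hdeg : ((∑ v, G.degree v : ℕ) : ℝ) ≤ ((k : ℝ) + 1) * Fintype.card (Fin n) := by
    rw [hsum, Fintype.card_fin]
    push_cast
    have : 0 ≤ ε * n := by positivity
    nlinarith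
  obtain ⟨D, hDa, hDb, hDc⟩ := hD1 (Fin n) G hdeg
  rw [Fintype.card_fin] at hDc
  have hw := hC D (Fin n) G (by rw [Fintype.card_fin]; exact hn2) hG
  have hbad := bad_le G D k (C D) hw.1 hw.2
  have hdis := h3 (Fin n) G D k hk hmin
  have hub1 := Pool.Agent.K1H1.DF.hub_card G D
  have hBc : (univ.filter (fun v => v ∉ hub G D)).card + (hub G D).card = n := by
    have e : univ.filter (fun v => v ∉ hub G D) = (hub G D)ᶜ := by
      ext v
      simp
    rw [e, Finset.card_compl_add_card, Fintype.card_fin]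
  rw [hsum] at hdis
  obtain ⟨e, he⟩ : ∃ e, e = G.edgeFinset.card := ⟨_, rfl⟩
  rw [← he] at hdis hub1 hcon
  have hbadR : ((bad G D k).card : ℝ) ≤ M + ε / 2 * n := by
    have a1 : ((bad G D k).card : ℝ) ≤ (C D : ℝ) + ((∑ h ∈ hub G D, min (G.degree h) (C D) : ℕ) : ℝ) := by
      exact_mod_cast hbad
    have a2 : (C D : ℝ) ≤ M := by exact_mod_cast hCM D hDb
    linarith
  have hdisR : ((k : ℝ) + 1) * ((univ.filter (fun v => v ∉ hub G D)).card : ℝ) ≤
      2 * e + ((bad G D k).card : ℝ) := by exact_mod_cast hdis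
  have hub1R : ((hub G D).card : ℝ) * D0 ≤ 2 * e := by
    have a1 : ((hub G D).card : ℝ) * D ≤ 2 * e := by exact_mod_cast hub1
    have a2 : (D0 : ℝ) ≤ D := by exact_mod_cast hDa
    have a3 : (0 : ℝ) ≤ ((hub G D).card : ℝ) := Nat.cast_nonneg _
    nlinarith
  have hBcR : ((univ.filter (fun v => v ∉ hub G D)).card : ℝ) + ((hub G D).card : ℝ) = n := by
    exact_mod_cast hBc
  generalize ((hub G D).card : ℝ) = h at *
  generalize ((univ.filter (fun v => v ∉ hub G D)).card : ℝ) = b at *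
  generalize ((bad G D k).card : ℝ) = x at *
  have hkR : (0 : ℝ) < (k : ℝ) + 1 := by positivity
  have a1 : h * D0 ≤ (k + 1) * n := by
    have : 0 ≤ ε * n := by positivity
    nlinarith
  have a2 : 2 * ((k : ℝ) + 1) ^ 2 ≤ D0 * ε := by
    rw [div_lt_iff₀ hε] at hD0
    exact hD0.le
  have a3 : ((k : ℝ) + 1) * h ≤ ε / 2 * n := by
    have b1 : D0 * (((k : ℝ) + 1) * h) ≤ D0 * (ε / 2 * n) := by
      calc D0 * (((k : ℝ) + 1) * h) = ((k : ℝ) + 1) * (h * D0) := by ring
        _ ≤ ((k : ℝ) + 1) * ((k + 1) * n) := mul_le_mul_of_nonneg_left a1 hkR.le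
        _ = (2 * ((k : ℝ) + 1) ^ 2) * n / 2 := by ring
        _ ≤ (D0 * ε) * n / 2 := by
            have := mul_le_mul_of_nonneg_right a2 hnR
            linarith
        _ = D0 * (ε / 2 * n) := by ring
    exact le_of_mul_le_mul_left b1 hD0pos
  have a4 : (M : ℝ) ≤ ε * n := by
    rw [div_le_iff₀ hε] at hN
    have : (N : ℝ) ≤ n := by exact_mod_cast hn1
    nlinarith
  nlinarith

end Pool.Agent.K1H88.DF5
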